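import Pool.Agent.Lib.BNC.Rec
import Pool.Agent.Lib.BND.G0

/-!
# The record of the slice `[0 / 1024, 26 / 1024]`
-/

set_option autoImplicit false

namespace Pool.Agent.BND.S0

open Pool.Agent.BNC

def B0 : Block where
  es := ev0
  kap := [79931, 79931, 79931, 79931]
  As := As0
  b1 := b10
  b2 := b20
  st := [
    ⟨1530360071, 1118555588, 1542356176, 3797003500, 121723103, 37155020⟩,
    ⟨1790336618, 1755407535, 1788798738, 5296598053, 32353010, 38510836⟩,
    ⟨1934181584, 2107777577, 1705689224, 5423244524, 7768314, 38053605⟩,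
    ⟨2008360595, 2289490306, 1618696552, 5309258966, 2357103, 37575010⟩]

def B1 : Block where
  es := ev1
  kap := [7977, 7606, 7894, 8304, 7942, 7978, 7951, 8272, 7852, 8186, 7959, 7832, 5193]
  As := As1
  b1 := b11
  b2 := b21
  st := [
    ⟨2069458000, 2439157657, 1605754903, 5390986945, 1772812, 37503811⟩,
    ⟨2091035691, 2492015481, 1549254242, 5241936838, 975998, 37192970⟩,
    ⟨2113283363, 2546514524, 1550981781, 5288859721, 979578, 37202475⟩,
    ⟨2136244619, 2602761602, 1552400558, 5335233786, 983219, 37210280⟩,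
    ⟨2159967101, 2660873415, 1553502115, 5381034927, 986929, 37216340⟩,
    ⟨2184502980, 2720977768, 1554277670, 5426238500, 990717, 37220607⟩,
    ⟨2236249831, 2847739522, 1592000900, 5646649731, 1360938, 37428143⟩,
    ⟨2292017526, 2984350941, 1593841922, 5744406727, 1391137, 37438272⟩]

def B2 : Block where
  es := ev2
  kap := [79931, 79931, 79931, 79931]
  As := As2
  b1 := b12
  b2 := b22
  st := [
    ⟨2418386095, 3293909899, 1685104183, 6275422793, 3203493, 37940355⟩,
    ⟨2710049719, 4008384143, 1884624711, 7459651438, 10290918, 39038027⟩,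
    ⟨3494762668, 5930657423, 2422702115, 10645415726, 37233165, 41998285⟩,
    ⟨4803316898, 9136159300, 2499301993, 12006907520, 29064446, 42419702⟩]

def S : NSlice where
  T := 25
  L1 := 0
  L2 := 26
  R1 := 11863619
  R2 := 11713037
  F := 1519032962
  Fd := 2631290529
  P := 6258727042
  Pd := 17703856655
  KL := 3655530126
  blocks := [B0, B1, B2]

theorem ok : S.ok = true := by decide +kernel

end Pool.Agent.BND.S0
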