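/-!
# Grid of the slice `[102 / 1024, 128 / 1024]`: nodes and bounds (data)

`ev`: nodes `e` (units `1 / 1024`); `As`: nodes `a` (units `1 / 1024`); `b1`, `b2`: bounds at the two ends
(units `2 ^ (-20)`).
-/

set_option autoImplicit false

namespace Pool.Agent.BND.S102

def ev0 : List (Int × Int) :=
  [(1024, 0), (479, 905), ((-568), 852), ((-1024), 0)]

def As0 : List Nat :=
  [0, 376, 528, 576]

def b10 : List (List Nat) := [
  [811745, 811748, 811745, 811745],
  [1236338, 1238305, 1238653, 1232916],
  [1347777, 1347778, 1348414, 1354501],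
  [1376665, 1376666, 1377290, 1383266]]

def b20 : List (List Nat) := [
  [803719, 803716, 803719, 803719],
  [1222438, 1222439, 1223068, 1218408],
  [1333377, 1333378, 1334023, 1338910],
  [1362653, 1362654, 1363286, 1367128]]

def ev1 : List (Int × Int) :=
  [(1024, 0), (964, 345), (823, 609), (609, 823), (394, 945), (149, 1013), ((-101), 1019),
   ((-345), 964), ((-568), 852), ((-792), 649), ((-964), 345), ((-1024), 0)]

def As1 : List Nat :=
  [576, 648, 688, 712, 736, 760, 792]

def b11 : List (List Nat) := [
  [1388857, 1389890, 1390831, 1391542, 1392001, 1391879, 1391473, 1390701, 1389549, 1387761,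
   1385581, 1384455],
  [1404575, 1404576, 1405569, 1405569, 1406446, 1406446, 1406522, 1406522, 1405609, 1404598,
   1404577, 1404575],
  [1410775, 1410775, 1411758, 1411757, 1412626, 1412626, 1412700, 1412701, 1411797, 1410796,
   1410776, 1410776],
  [1412674, 1412674, 1413650, 1413651, 1414514, 1414513, 1414588, 1414588, 1413690, 1412695,
   1412675, 1412674],
  [1412561, 1412562, 1413538, 1413538, 1414401, 1414400, 1414475, 1414475, 1413577, 1412582,
   1412562, 1412561],
  [1411091, 1411092, 1412074, 1412074, 1412942, 1412942, 1413017, 1413017, 1412113, 1411112,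
   1411092, 1411091],
  [1411092, 1411093, 1412075, 1412075, 1412943, 1412943, 1413017, 1413019, 1412113, 1411112,
   1411093, 1411092]]

def b21 : List (List Nat) := [
  [1372751, 1374280, 1375702, 1376827, 1377402, 1377618, 1377349, 1376651, 1374867, 1372116,
   1368894, 1367128],
  [1390937, 1390938, 1391944, 1391944, 1392833, 1392833, 1392910, 1392910, 1391984, 1390960,
   1390939, 1390938],
  [1397219, 1397220, 1398216, 1398216, 1399096, 1399096, 1399171, 1399171, 1398256, 1397241,
   1397221, 1397220],
  [1399144, 1399145, 1400134, 1400134, 1401008, 1401008, 1401083, 1401083, 1400173, 1399165,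
   1399146, 1399144],
  [1399030, 1399031, 1400020, 1400020, 1400894, 1400894, 1400969, 1400969, 1400059, 1399051,
   1399032, 1399030],
  [1397540, 1397541, 1398536, 1398536, 1399416, 1399416, 1399491, 1399491, 1398575, 1397561,
   1397541, 1397539],
  [1395967, 1397527, 1398537, 1398537, 1399417, 1399417, 1399492, 1399492, 1398576, 1397562,
   1397541, 1397540]]

def ev2 : List (Int × Int) :=
  [(1024, 0), (762, 684), (201, 1004), ((-394), 945), ((-852), 568), ((-1024), 0)]

def As2 : List Nat :=
  [792, 816, 864, 936, 984]

def b12 : List (List Nat) := [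
  [1398667, 1398668, 1402648, 1404597, 1404781, 1404806],
  [1390883, 1390884, 1394966, 1396966, 1397155, 1397179],
  [1358131, 1362781, 1367121, 1369247, 1369447, 1369474],
  [1246971, 1266710, 1289654, 1301146, 1303722, 1302963],
  [1154180, 1183805, 1208970, 1221325, 1224419, 1223535]]

def b22 : List (List Nat) := [
  [1384949, 1384950, 1388983, 1390958, 1391146, 1391170],
  [1377060, 1377062, 1381199, 1383225, 1383417, 1383443],
  [1339843, 1348584, 1352981, 1355134, 1355338, 1355364],
  [1228199, 1258597, 1287905, 1300856, 1302176, 1299790],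
  [1167252, 1192372, 1218351, 1230355, 1231622, 1228484]]

end Pool.Agent.BND.S102
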