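import Pool.Agent.Lib.BNC.Rec
import Pool.Agent.Lib.BND.G102

/-!
# The record of the slice `[102 / 1024, 128 / 1024]`
-/

set_option autoImplicit false

namespace Pool.Agent.BND.S102

open Pool.Agent.BNC

def B0 : Block where
  es := ev0
  kap := [150339, 147857, 124098]
  As := As0
  b1 := b10
  b2 := b20
  st := [
    ⟨1480398927, 893407778, 1371615034, 3027130336, 98465544, 180224406⟩,
    ⟨1677360884, 1326124537, 1523459326, 3932358701, 22463189, 184904176⟩,
    ⟨1753064868, 1492442862, 1412030788, 3816249033, 3076469, 181470000⟩]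

def B1 : Block where
  es := ev1
  kap := [15572, 11443, 11698, 7852, 8272, 7951, 7978, 7942, 11543, 15492, 15572]
  As := As1
  b1 := b11
  b2 := b21
  st := [
    ⟨1885688936, 1783812109, 1521293124, 4399499645, 7143694, 184837414⟩,
    ⟨1973021956, 1975678915, 1460705802, 4386051508, 2905556, 182970141⟩,
    ⟨2031743962, 2104688581, 1417280439, 4353609044, 1549867, 181631792⟩,
    ⟨2096376666, 2246683789, 1420750276, 4465982236, 1616798, 181738731⟩,
    ⟨2168219240, 2404518767, 1422284062, 4576862394, 1693730, 181786001⟩,
    ⟨2278316655, 2646397946, 1459156072, 4848946182, 2688828, 182922379⟩]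

def B2 : Block where
  es := ev2
  kap := [69397, 53589, 45849, 45115, 45017]
  As := As2
  b1 := b12
  b2 := b22
  st := [
    ⟨2374913306, 2858616543, 1418319750, 4832703163, 1931494, 181663823⟩,
    ⟨2622433299, 3402407086, 1570959032, 5647357958, 6977110, 186368094⟩,
    ⟨3290492798, 4870104434, 1952174618, 7730819242, 25538209, 198116980⟩,
    ⟨4485733790, 7495996349, 2071479006, 8994671417, 24017784, 201793886⟩]

def S : NSlice where
  T := 30
  L1 := 102
  L2 := 128
  R1 := 11274427
  R2 := 11125386
  F := 1461399305
  Fd := 2157569757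
  P := 5473628432
  Pd := 13414624473
  KL := 3454553611
  blocks := [B0, B1, B2]

theorem ok : S.ok = true := by decide +kernel

end Pool.Agent.BND.S102
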