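import Pool.Agent.Lib.BNC.Rec
import Pool.Agent.Lib.BND.G128

/-!
# The record of the slice `[128 / 1024, 154 / 1024]`
-/

set_option autoImplicit false

namespace Pool.Agent.BND.S128

open Pool.Agent.BNC

def B0 : Block where
  es := ev0
  kap := [37922, 31972, 32037, 30733, 38315, 45017]
  As := As0
  b1 := b10
  b2 := b20
  st := [
    ⟨1489000012, 889334999, 1369256227, 3004887490, 111886433, 230904197⟩,
    ⟨1694204445, 1328809737, 1523384987, 3913047947, 27611583, 238364771⟩,
    ⟨1812643447, 1582463857, 1456489893, 3999563234, 7094867, 235126727⟩,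
    ⟨1873318338, 1712407841, 1383001302, 3911415427, 2080569, 231569525⟩]

def B1 : Block where
  es := ev1
  kap := [11636, 11121, 8304, 5039, 5121, 2924, 3172, 2681, 2878, 3042, 5036, 8304, 11113, 15372, 1287]
  As := As1
  b1 := b11
  b2 := b21
  st := [
    ⟨1958491822, 1894819080, 1420244290, 4168385433, 3096859, 233372265⟩,
    ⟨2015801763, 2017556543, 1376683439, 4132447156, 1641308, 231263710⟩,
    ⟨2078909840, 2152711545, 1378703994, 4234000501, 1713555, 231361515⟩,
    ⟨2124815179, 2251024417, 1347854103, 4203681305, 1189568, 229868231⟩,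
    ⟨2200617455, 2413365869, 1377832363, 4399905634, 1859582, 231319324⟩,
    ⟨2351121618, 2735692129, 1453348559, 4835491092, 4429358, 234974671⟩]

def B2 : Block where
  es := ev2
  kap := [52930, 37989, 31958, 31237, 8304, 7894, 30963]
  As := As2
  b1 := b12
  b2 := b22
  st := [
    ⟨2593228462, 3254198678, 1515856625, 5320302469, 7509308, 238000362⟩,
    ⟨3141521515, 4428446931, 1755890618, 6706274295, 20268662, 249619164⟩,
    ⟨4417662913, 7161486860, 2153930092, 9137415411, 36064434, 268886191⟩]

def S : NSlice where
  T := 40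
  L1 := 128
  L2 := 154
  R1 := 11125386
  R2 := 10976978
  F := 1451010495
  Fd := 2060691240
  P := 5300971680
  Pd := 12548351307
  KL := 3426953125
  blocks := [B0, B1, B2]

theorem ok : S.ok = true := by decide +kernel

end Pool.Agent.BND.S128
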