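/-!
# Grid of the slice `[179 / 1024, 205 / 1024]`: nodes and bounds (data)

`ev`: nodes `e` (units `1 / 1024`); `As`: nodes `a` (units `1 / 1024`); `b1`, `b2`: bounds at the two ends
(units `2 ^ (-20)`).
-/

set_option autoImplicit false

namespace Pool.Agent.BND.S179

def ev0 : List (Int × Int) :=
  [(1024, 0), (525, 879), ((-479), 905), ((-1024), 0)]

def As0 : List Nat :=
  [0, 360, 456]

def b10 : List (List Nat) := [
  [802787, 802780, 802785, 802787],
  [1185562, 1185563, 1179788, 1179788],
  [1276421, 1279033, 1274857, 1258940]]

def b20 : List (List Nat) := [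
  [794060, 794055, 794057, 794060],
  [1172279, 1172280, 1166424, 1166197],
  [1263915, 1266636, 1263561, 1243489]]

def ev1 : List (Int × Int) :=
  [(1024, 0), (926, 437), (684, 762), (437, 926), (201, 1004), (0, 1024), ((-201), 1004),
   ((-394), 945), ((-609), 823), ((-823), 609), ((-993), 250), ((-1024), 0)]

def As1 : List Nat :=
  [456, 592, 656, 696, 720, 744, 768, 792, 832, 888]

def b11 : List (List Nat) := [
  [1276421, 1277855, 1278778, 1279107, 1279051, 1278484, 1277478, 1275819, 1272941, 1267893,
   1261388, 1258940],
  [1338881, 1338881, 1340941, 1345230, 1346683, 1347852, 1347821, 1346675, 1344971, 1341251,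
   1341252, 1342888],
  [1362090, 1362091, 1364113, 1368326, 1369754, 1370902, 1370871, 1369746, 1368073, 1364418,
   1364418, 1367507],
  [1366664, 1366665, 1368668, 1372841, 1374255, 1375392, 1375362, 1374246, 1372589, 1368970,
   1368970, 1374192],
  [1368767, 1368768, 1370752, 1374884, 1376283, 1377410, 1377380, 1376275, 1374634, 1371049,
   1371050, 1376222],
  [1368658, 1368659, 1370642, 1374771, 1376170, 1377295, 1377265, 1376161, 1374521, 1370939,
   1370939, 1376108],
  [1368533, 1368534, 1370514, 1374639, 1376037, 1377161, 1377131, 1376028, 1374391, 1370811,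
   1370811, 1375975],
  [1363002, 1364561, 1366572, 1370756, 1372175, 1373315, 1373285, 1372166, 1370503, 1366872,
   1366873, 1372111],
  [1336308, 1343032, 1355973, 1361461, 1362914, 1364083, 1364051, 1362906, 1361201, 1357479,
   1357480, 1362849],
  [1274175, 1287697, 1310093, 1324931, 1334572, 1340252, 1344013, 1345973, 1346220, 1343662,
   1337314, 1335120]]

def b21 : List (List Nat) := [
  [1263915, 1265228, 1266240, 1266823, 1267083, 1266869, 1266128, 1264556, 1261324, 1255222,
   1246670, 1243489],
  [1327713, 1327713, 1329802, 1334150, 1335623, 1336808, 1336777, 1335614, 1333888, 1330115,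
   1329569, 1326296],
  [1351242, 1351243, 1353294, 1357565, 1359012, 1360176, 1360146, 1359004, 1357308, 1353602,
   1353602, 1351115],
  [1355880, 1355881, 1357912, 1362142, 1363575, 1364728, 1364698, 1363567, 1361887, 1358217,
   1358218, 1360968],
  [1358011, 1358012, 1360024, 1364213, 1365632, 1366773, 1366743, 1365623, 1363960, 1360326,
   1360327, 1364531],
  [1357901, 1357902, 1359913, 1364098, 1365517, 1366657, 1366627, 1365508, 1363845, 1360214,
   1360215, 1365454],
  [1356053, 1357776, 1359783, 1363965, 1365382, 1366521, 1366491, 1365373, 1363712, 1360084,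
   1360085, 1365319],
  [1345601, 1351531, 1355786, 1360028, 1361466, 1362623, 1362592, 1361457, 1359772, 1356090,
   1356091, 1361402],
  [1318545, 1327405, 1344077, 1350604, 1352078, 1353262, 1353231, 1352068, 1350341, 1346568,
   1346569, 1352012],
  [1255899, 1274394, 1302412, 1319958, 1331014, 1337386, 1341515, 1343576, 1343640, 1340330,
   1331607, 1328109]]

def ev2 : List (Int × Int) :=
  [(1024, 0), (609, 823), ((-101), 1019), ((-762), 684), ((-1024), 0)]

def As2 : List Nat :=
  [888, 936, 984]

def b12 : List (List Nat) := [
  [1274175, 1315232, 1333628, 1333627, 1334379],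
  [1191359, 1266379, 1299715, 1304610, 1294787],
  [1191218, 1223967, 1247566, 1250589, 1238227]]

def b22 : List (List Nat) := [
  [1255899, 1303792, 1322386, 1322386, 1323148],
  [1184879, 1267824, 1301991, 1301991, 1292747],
  [1201559, 1235998, 1259299, 1261028, 1243179]]

end Pool.Agent.BND.S179
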