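import Pool.Agent.Lib.BNC.Rec
import Pool.Agent.Lib.BND.G179

/-!
# The record of the slice `[179 / 1024, 205 / 1024]`
-/

set_option autoImplicit false

namespace Pool.Agent.BND.S179

open Pool.Agent.BNC

def B0 : Block where
  es := ev0
  kap := [136782, 134922, 150339]
  As := As0
  b1 := b10
  b2 := b20
  st := [
    ⟨1468233955, 805587731, 1296559292, 2719346518, 91380926, 295369235⟩,
    ⟨1570724750, 1014882975, 1300487808, 2981040604, 8230103, 295610948⟩]

def B1 : Block where
  es := ev1
  kap := [25446, 20796, 11113, 7832, 5193, 5193, 5262, 7852, 11698, 20099, 7977]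
  As := As1
  b1 := b11
  b2 := b21
  st := [
    ⟨1756255253, 1393752628, 1487261258, 3847822781, 21067687, 307102690⟩,
    ⟨1869085804, 1624162567, 1398896304, 3830068813, 5851904, 301665797⟩,
    ⟨1952537011, 1794577294, 1351940541, 3837078374, 2896686, 298776716⟩,
    ⟨2008972911, 1909824380, 1306027717, 3789170780, 1510498, 295951805⟩,
    ⟨2071380341, 2037265855, 1304793264, 3871401348, 1576802, 295875852⟩,
    ⟨2141102646, 2179644954, 1301718898, 3952021566, 1653484, 295686694⟩,
    ⟨2219953636, 2340665632, 1296784231, 4031380333, 1743747, 295383075⟩,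
    ⟨2378986089, 2665423930, 1367695997, 4432438287, 4265240, 299746113⟩,
    ⟨2698632441, 3318169977, 1488567785, 5149178141, 10334177, 307183078⟩]

def B2 : Block where
  es := ev2
  kap := [112402, 70358, 71092, 69397]
  As := As2
  b1 := b12
  b2 := b22
  st := [
    ⟨3171167606, 4283128468, 1499916666, 5551632985, 11122030, 307881348⟩,
    ⟨4297611440, 6583426145, 1827237414, 7425455275, 23061316, 328020644⟩]

def S : NSlice where
  T := 40
  L1 := 179
  L2 := 205
  R1 := 10834818
  R2 := 10687355
  F := 1435396102
  Fd := 1892988545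
  P := 4989264562
  Pd := 11054724157
  KL := 3399107864
  blocks := [B0, B1, B2]

theorem ok : S.ok = true := by decide +kernel

end Pool.Agent.BND.S179
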