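import Pool.Agent.Lib.BNC.Rec
import Pool.Agent.Lib.BND.G205

/-!
# The record of the slice `[205 / 1024, 230 / 1024]`
-/

set_option autoImplicit false

namespace Pool.Agent.BND.S205

open Pool.Agent.BNC

def B0 : Block where
  es := ev0
  kap := [79931, 79931, 79931, 79931]
  As := As0
  b1 := b10
  b2 := b20
  st := [
    ⟨1472195657, 795056020, 1285824020, 2674636875, 93539509, 336707157⟩,
    ⟨1627736873, 1105415640, 1377599985, 3248689340, 19835524, 343643553⟩]

def B1 : Block where
  es := ev1
  kap := [25446, 20796, 11113, 7832, 5193, 5193, 5262, 5036, 8304, 14963, 20544]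
  As := As1
  b1 := b11
  b2 := b21
  st := [
    ⟨1776100613, 1401453662, 1418118043, 3656084417, 13074612, 346705894⟩,
    ⟨1875879216, 1600547189, 1351679679, 3658253676, 4695203, 341684505⟩,
    ⟨1959749748, 1767898501, 1320464513, 3702857708, 2913289, 339325274⟩,
    ⟨2016722288, 1881578825, 1272437527, 3646776840, 1482674, 335695410⟩,
    ⟨2079966323, 2007772995, 1269372180, 3719999534, 1551674, 335463733⟩,
    ⟨2126311297, 2100247575, 1235708731, 3676832256, 1038053, 332919461⟩,
    ⟨2203486636, 2254239612, 1260228709, 3838739900, 1693531, 334772672⟩,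
    ⟨2324764186, 2496231127, 1288285737, 4054896627, 2827462, 336893213⟩,
    ⟨2519721287, 2885239347, 1327662012, 4368175020, 4847406, 339869258⟩]

def B2 : Block where
  es := ev2
  kap := [100896, 53703, 36762, 38928, 37922]
  As := As2
  b1 := b12
  b2 := b22
  st := [
    ⟨2732187594, 3309184614, 1275832201, 4366369832, 3879509, 335951979⟩,
    ⟨3249758747, 4341921728, 1468466345, 5392428968, 12047872, 350511202⟩,
    ⟨4241930544, 6321654622, 1602849493, 6380231298, 15969077, 360667834⟩]

def S : NSlice where
  T := 45
  L1 := 205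
  L2 := 230
  R1 := 10687355
  R2 := 10545629
  F := 1429455379
  Fd := 1816940328
  P := 4842451833
  Pd := 10382578824
  KL := 3392906807
  blocks := [B0, B1, B2]

theorem ok : S.ok = true := by decide +kernel

end Pool.Agent.BND.S205
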