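/-!
# Grid of the slice `[230 / 1024, 256 / 1024]`: nodes and bounds (data)

`ev`: nodes `e` (units `1 / 1024`); `As`: nodes `a` (units `1 / 1024`); `b1`, `b2`: bounds at the two ends
(units `2 ^ (-20)`).
-/

set_option autoImplicit false

namespace Pool.Agent.BND.S230

def ev0 : List (Int × Int) :=
  [(1024, 0), (724, 724), (0, 1024), ((-724), 724), ((-1024), 0)]

def As0 : List Nat :=
  [0, 360, 512, 576]

def b10 : List (List Nat) := [
  [791784, 791778, 791784, 791778, 791784],
  [1173965, 1173966, 1173966, 1172023, 1154510],
  [1283155, 1283156, 1283156, 1283157, 1267555],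
  [1310507, 1310508, 1310507, 1310508, 1303617]]

def b20 : List (List Nat) := [
  [782525, 782518, 782524, 782519, 782525],
  [1162590, 1162591, 1162591, 1161650, 1140375],
  [1273332, 1273333, 1273333, 1273334, 1251758],
  [1301073, 1301074, 1301074, 1301074, 1287623]]

def ev1 : List (Int × Int) :=
  [(1024, 0), (905, 479), (649, 792), (394, 945), (149, 1013), ((-45), 1023), ((-250), 993),
   ((-437), 926), ((-609), 823), ((-792), 649), ((-945), 394), ((-1024), 0)]

def As1 : List Nat :=
  [576, 648, 696, 728, 752, 776, 800, 832, 864]

def b11 : List (List Nat) := [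
  [1323670, 1326556, 1329314, 1330719, 1331102, 1331008, 1330544, 1328972, 1326250, 1320793,
   1312192, 1303617],
  [1334057, 1334058, 1339783, 1345039, 1346713, 1348318, 1348318, 1348415, 1346761, 1345040,
   1339870, 1333725],
  [1339162, 1339163, 1344834, 1350044, 1351702, 1353293, 1353293, 1353388, 1351750, 1350044,
   1344921, 1344921],
  [1341876, 1341877, 1347494, 1352652, 1354295, 1355870, 1355869, 1355964, 1354341, 1352652,
   1347579, 1347579],
  [1342841, 1342842, 1348415, 1353532, 1355162, 1356724, 1356724, 1356818, 1355208, 1353532,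
   1348498, 1348498],
  [1337785, 1342732, 1348296, 1353403, 1355030, 1356590, 1356590, 1356684, 1355076, 1353403,
   1348378, 1348378],
  [1325545, 1335180, 1346472, 1351610, 1353246, 1354816, 1354815, 1354910, 1353293, 1351611,
   1346555, 1346554],
  [1302339, 1315803, 1336480, 1349902, 1352679, 1354244, 1354245, 1354339, 1352726, 1351046,
   1346000, 1344045],
  [1270015, 1289985, 1317363, 1334105, 1344623, 1350018, 1353417, 1354339, 1352726, 1350728,
   1343209, 1333290]]

def b21 : List (List Nat) := [
  [1309480, 1312769, 1316300, 1318176, 1319115, 1319199, 1318932, 1317689, 1314940, 1308920,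
   1298679, 1287623],
  [1324958, 1324959, 1330764, 1336095, 1337794, 1339422, 1339422, 1339520, 1337842, 1336096,
   1329509, 1318101],
  [1330135, 1330136, 1335889, 1341171, 1342853, 1344466, 1344466, 1344563, 1342901, 1341171,
   1335976, 1331688],
  [1332887, 1332888, 1338585, 1343817, 1345482, 1347080, 1347080, 1347176, 1345530, 1343818,
   1338672, 1337367],
  [1329403, 1333867, 1339520, 1344709, 1346362, 1347947, 1347947, 1348042, 1346409, 1344709,
   1339605, 1339604],
  [1320755, 1330319, 1339398, 1344578, 1346228, 1347810, 1347810, 1347905, 1346275, 1344578,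
   1339483, 1339482],
  [1308249, 1320322, 1337548, 1342760, 1344419, 1346010, 1346010, 1346106, 1344466, 1342759,
   1337634, 1337633],
  [1284706, 1301725, 1326597, 1342188, 1343844, 1345432, 1345431, 1345527, 1343890, 1342186,
   1337070, 1334102],
  [1252047, 1277717, 1310063, 1329135, 1340830, 1345432, 1345432, 1345528, 1343891, 1342187,
   1337070, 1325401]]

def ev2 : List (Int × Int) :=
  [(1024, 0), (724, 724), (250, 993), ((-201), 1004), ((-609), 823), ((-905), 479), ((-1024), 0)]

def As2 : List Nat :=
  [864, 896, 944, 984]

def b12 : List (List Nat) := [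
  [1270015, 1310752, 1335721, 1342291, 1342064, 1339505, 1333290],
  [1226931, 1286779, 1322318, 1329690, 1329454, 1326791, 1317904],
  [1199973, 1255280, 1290262, 1304264, 1306983, 1300783, 1285180],
  [1211425, 1241213, 1263990, 1272775, 1273506, 1269158, 1255850]]

def b22 : List (List Nat) := [
  [1252047, 1302468, 1326645, 1333307, 1333077, 1330484, 1325401],
  [1208624, 1282744, 1313591, 1320527, 1320287, 1317587, 1312531],
  [1208277, 1260740, 1296573, 1310494, 1312634, 1306296, 1284842],
  [1220011, 1253489, 1276880, 1285132, 1284897, 1281425, 1271111]]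

end Pool.Agent.BND.S230
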