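import Pool.Agent.Lib.BNC.Rec
import Pool.Agent.Lib.BND.G230

/-!
# The record of the slice `[230 / 1024, 256 / 1024]`
-/

set_option autoImplicit false

namespace Pool.Agent.BND.S230

open Pool.Agent.BNC

def B0 : Block where
  es := ev0
  kap := [79931, 79931, 79931, 79931]
  As := As0
  b1 := b10
  b2 := b20
  st := [
    ⟨1478070877, 789500787, 1278919599, 2645170765, 92912014, 370185020⟩,
    ⟨1637613931, 1101027663, 1375878320, 3225984822, 22024501, 378153928⟩,
    ⟨1723350402, 1268438366, 1303950682, 3223445487, 4869730, 372242291⟩]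

def B1 : Block where
  es := ev1
  kap := [30963, 20698, 11273, 8272, 4832, 5393, 5010, 5221, 8186, 11273, 20544]
  As := As1
  b1 := b11
  b2 := b21
  st := [
    ⟨1839711222, 1495646772, 1354409905, 3556623794, 6972909, 376389467⟩,
    ⟨1933922367, 1679605290, 1312668308, 3592764626, 3788475, 372958781⟩,
    ⟨2007066257, 1822427474, 1268757199, 3572834574, 2148498, 369349785⟩,
    ⟨2068988737, 1943338515, 1239352581, 3567525335, 1537659, 366933059⟩,
    ⟨2138519178, 2079105008, 1233363165, 3631556791, 1613413, 366440797⟩,
    ⟨2217604212, 2233527987, 1225589612, 3694369823, 1703229, 365801899⟩,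
    ⟨2342809348, 2478005976, 1251986248, 3900455620, 2834260, 367971403⟩,
    ⟨2500337369, 2785598260, 1243738945, 4015010601, 3205251, 367293568⟩]

def B2 : Block where
  es := ev2
  kap := [79931, 37928, 25839, 25394, 26256, 30963]
  As := As2
  b1 := b12
  b2 := b22
  st := [
    ⟨2709022101, 3193080133, 1237655792, 4155265152, 3750453, 366793602⟩,
    ⟨3217735503, 4186403835, 1420576718, 5117032074, 11490687, 381827629⟩,
    ⟨4193569361, 6091836042, 1545736819, 6036601022, 15110788, 392114371⟩]

def S : NSlice where
  T := 45
  L1 := 230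
  L2 := 256
  R1 := 10545629
  R2 := 10397833
  F := 1425843425
  Fd := 1750016119
  P := 4707898876
  Pd := 9784191062
  KL := 3404988496
  blocks := [B0, B1, B2]

theorem ok : S.ok = true := by decide +kernel

end Pool.Agent.BND.S230
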