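import Pool.Agent.Lib.BNC.Rec
import Pool.Agent.Lib.BND.G256

/-!
# The record of the slice `[256 / 1024, 282 / 1024]`
-/

set_option autoImplicit false

namespace Pool.Agent.BND.S256

open Pool.Agent.BNC

def B0 : Block where
  es := ev0
  kap := [79931, 79931, 79931, 79931]
  As := As0
  b1 := b10
  b2 := b20
  st := [
    ⟨1477793080, 771811407, 1260521708, 2577194585, 92823579, 425587541⟩,
    ⟨1628477991, 1059647002, 1349816252, 3106461109, 22862419, 435204641⟩]

def B1 : Block where
  es := ev1
  kap := [25446, 20796, 11113, 7832, 5193, 2898, 3103, 2769, 2900, 2737, 5539, 11443, 15572]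
  As := As1
  b1 := b11
  b2 := b21
  st := [
    ⟨1781001428, 1350994516, 1387325574, 3492061946, 15788539, 439244427⟩,
    ⟨1893947404, 1566741877, 1321183066, 3507044016, 6344016, 432120822⟩,
    ⟨1960982015, 1694790179, 1240790367, 3385511034, 2171859, 423462459⟩,
    ⟨2017384586, 1802529351, 1213402458, 3381748106, 1556070, 420512758⟩,
    ⟨2058517897, 1881101460, 1182327004, 3343179777, 1058367, 417165904⟩,
    ⟨2102971020, 1966015012, 1175984507, 3374781516, 1080575, 416482812⟩,
    ⟨2151276603, 2058287464, 1168674687, 3404991907, 1105264, 415695538⟩,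
    ⟨2204097321, 2159184645, 1160364304, 3433803651, 1132982, 414800503⟩,
    ⟨2293687039, 2330317304, 1183216813, 3587442470, 1888715, 417261738⟩,
    ⟨2439015918, 2607921903, 1210275916, 3798455061, 3239411, 420176026⟩,
    ⟨2686357058, 3080388479, 1254636053, 4131964983, 5811719, 424953651⟩,
    ⟨3186254321, 4035283199, 1373394273, 4852108950, 12072636, 437744014⟩,
    ⟨4145872592, 5868328678, 1489601645, 5706553252, 15938223, 450259649⟩]

def S : NSlice where
  T := 55
  L1 := 256
  L2 := 282
  R1 := 10397833
  R2 := 10249024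
  F := 1423218811
  Fd := 1684881453
  P := 4573951224
  Pd := 9205242756
  KL := 3420554499
  blocks := [B0, B1]

theorem ok : S.ok = true := by decide +kernel

end Pool.Agent.BND.S256
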