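/-!
# Grid of the slice `[26 / 1024, 51 / 1024]`: nodes and bounds (data)

`ev`: nodes `e` (units `1 / 1024`); `As`: nodes `a` (units `1 / 1024`); `b1`, `b2`: bounds at the two ends
(units `2 ^ (-20)`).
-/

set_option autoImplicit false

namespace Pool.Agent.BND.S26

def ev0 : List (Int × Int) :=
  [(1024, 0), (437, 926), ((-649), 792), ((-1024), 0)]

def As0 : List Nat :=
  [0, 400, 560, 600]

def b10 : List (List Nat) := [
  [824486, 824486, 824486, 824486],
  [1283628, 1283628, 1283695, 1289594],
  [1409878, 1409879, 1409948, 1416024],
  [1445365, 1445367, 1445434, 1448855]]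

def b20 : List (List Nat) := [
  [817179, 817178, 817178, 817179],
  [1265188, 1265188, 1265256, 1271229],
  [1393017, 1393017, 1393088, 1399239],
  [1428948, 1428948, 1429017, 1430785]]

def ev1 : List (Int × Int) :=
  [(1024, 0), (979, 300), (852, 568), (649, 792), (437, 926), (201, 1004), ((-45), 1023),
   ((-345), 964), ((-609), 823), ((-823), 609), ((-979), 300), ((-1024), 0)]

def As1 : List Nat :=
  [600, 664, 696, 712, 728, 744, 768]

def b11 : List (List Nat) := [
  [1449579, 1449628, 1449719, 1449835, 1449860, 1449775, 1449671, 1449523, 1449331, 1449138,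
   1448943, 1448855],
  [1454688, 1454688, 1454697, 1454697, 1455049, 1455063, 1454664, 1454664, 1454683, 1454331,
   1454332, 1454688],
  [1460365, 1460365, 1460374, 1460374, 1460722, 1460734, 1460342, 1460342, 1460360, 1460012,
   1460012, 1460365],
  [1461912, 1461913, 1461922, 1461921, 1462267, 1462280, 1461889, 1461889, 1461907, 1461563,
   1461563, 1461912],
  [1461878, 1461878, 1461887, 1461887, 1462234, 1462246, 1461855, 1461855, 1461873, 1461528,
   1461528, 1461878],
  [1460967, 1460968, 1460977, 1460977, 1461325, 1461337, 1460945, 1460945, 1460962, 1460615,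
   1460615, 1460967],
  [1460968, 1460969, 1460978, 1460978, 1461326, 1461338, 1460946, 1460946, 1460963, 1460615,
   1460616, 1460968]]

def b21 : List (List Nat) := [
  [1432008, 1432158, 1432499, 1432740, 1432901, 1432981, 1432918, 1432641, 1432195, 1431593,
   1431042, 1430785],
  [1438387, 1438388, 1438397, 1438397, 1438754, 1438766, 1438363, 1438364, 1438382, 1438027,
   1438027, 1438387],
  [1444135, 1444135, 1444145, 1444145, 1444498, 1444510, 1444112, 1444112, 1444130, 1443778,
   1443778, 1444135],
  [1445702, 1445703, 1445712, 1445712, 1446062, 1446074, 1445679, 1445679, 1445697, 1445348,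
   1445348, 1445702],
  [1445667, 1445668, 1445677, 1445677, 1446027, 1446039, 1445644, 1445644, 1445662, 1445313,
   1445313, 1445667],
  [1444745, 1444746, 1444755, 1444755, 1445107, 1445120, 1444722, 1444722, 1444740, 1444389,
   1444389, 1444745],
  [1444746, 1444747, 1444756, 1444756, 1445108, 1445121, 1444723, 1444723, 1444741, 1444390,
   1444390, 1444746]]

def ev2 : List (Int × Int) :=
  [(1024, 0), (823, 609), (300, 979), ((-345), 964), ((-852), 568), ((-1024), 0)]

def As2 : List Nat :=
  [768, 792, 840, 912, 984]

def b12 : List (List Nat) := [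
  [1456809, 1456810, 1456752, 1456752, 1456783, 1457577],
  [1450013, 1450014, 1449955, 1449955, 1449986, 1450799],
  [1427818, 1427820, 1427757, 1427758, 1427790, 1428643],
  [1346272, 1347627, 1350706, 1353707, 1355494, 1355981],
  [1184916, 1188674, 1196407, 1203389, 1207547, 1208739]]

def b22 : List (List Nat) := [
  [1440535, 1440536, 1440477, 1440477, 1440508, 1441312],
  [1433654, 1433656, 1433596, 1433596, 1433626, 1434451],
  [1411181, 1411183, 1411120, 1411119, 1411153, 1412017],
  [1328086, 1331624, 1338899, 1344796, 1347402, 1347869],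
  [1166607, 1178229, 1195002, 1206683, 1212210, 1213477]]

end Pool.Agent.BND.S26
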