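import Pool.Agent.Lib.BNC.Rec
import Pool.Agent.Lib.BND.G26

/-!
# The record of the slice `[26 / 1024, 51 / 1024]`
-/

set_option autoImplicit false

namespace Pool.Agent.BND.S26

open Pool.Agent.BNC

def B0 : Block where
  es := ev0
  kap := [162989, 162295, 100896]
  As := As0
  b1 := b10
  b2 := b20
  st := [
    ⟨1521650694, 1065712932, 1505496278, 3614294124, 118233343, 72023759⟩,
    ⟨1760519533, 1634055353, 1707757145, 4877923282, 27640559, 74185156⟩,
    ⟨1833559058, 1807838842, 1532190622, 4553586313, 2562981, 72309020⟩]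

def B1 : Block where
  es := ev1
  kap := [11636, 11121, 11543, 7959, 7832, 7718, 11880, 11443, 11698, 15272, 11636]
  As := As1
  b1 := b11
  b2 := b21
  st := [
    ⟨1968236473, 2128277826, 1654079078, 5231230372, 6320341, 73611542⟩,
    ⟨2046579782, 2314680648, 1578273041, 5148324983, 2270940, 72801465⟩,
    ⟨2089308822, 2416346173, 1527064577, 5059253409, 1148102, 72254242⟩,
    ⟨2134828605, 2524651736, 1530665092, 5150999080, 1170442, 72292718⟩,
    ⟨2183529717, 2640526656, 1533182533, 5241315574, 1194687, 72319620⟩,
    ⟨2263604337, 2831048801, 1572863966, 5507168712, 1840894, 72743663⟩]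

def B2 : Block where
  es := ev2
  kap := [52930, 52817, 53525, 53211, 45017]
  As := As2
  b1 := b12
  b2 := b22
  st := [
    ⟨2353979965, 3046080210, 1576279877, 5655732554, 1947236, 72780166⟩,
    ⟨2578321163, 3579856904, 1736711547, 6559368174, 6719014, 74494568⟩,
    ⟨3127642972, 4886862403, 2080405102, 8581564960, 22401717, 78167341⟩,
    ⟨4714014686, 8661328520, 2987824431, 13967225505, 61466363, 87864191⟩]

def S : NSlice where
  T := 25
  L1 := 26
  L2 := 51
  R1 := 11713037
  R2 := 11568397
  F := 1501607378
  Fd := 2494345369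
  P := 6040698053
  Pd := 16455124811
  KL := 3585788694
  blocks := [B0, B1, B2]

theorem ok : S.ok = true := by decide +kernel

end Pool.Agent.BND.S26
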