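import Pool.Agent.Lib.BNC.Rec
import Pool.Agent.Lib.BND.G282

/-!
# The record of the slice `[282 / 1024, 307 / 1024]`
-/

set_option autoImplicit false

namespace Pool.Agent.BND.S282

open Pool.Agent.BNC

def B0 : Block where
  es := ev0
  kap := [52930, 52817, 53525, 53211, 45017]
  As := As0
  b1 := b10
  b2 := b20
  st := [
    ⟨1491058029, 780173440, 1264887311, 2588553412, 97129372, 456654426⟩,
    ⟨1657632909, 1091585495, 1370073042, 3174515812, 28410901, 468624417⟩]

def B1 : Block where
  es := ev1
  kap := [37922, 25932, 11121, 8472, 4832, 3103, 2769, 2900, 2737, 5539, 7852, 20544]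
  As := As1
  b1 := b11
  b2 := b21
  st := [
    ⟨1790179560, 1339381712, 1338534017, 3341470508, 11514465, 465035319⟩,
    ⟨1887828800, 1521937152, 1274691953, 3329964169, 4775193, 457770180⟩,
    ⟨1971094689, 1677602889, 1235679494, 3339058393, 2939885, 453330616⟩,
    ⟨2028264785, 1784482493, 1183401720, 3265733048, 1472196, 447381477⟩,
    ⟨2070104222, 1862701400, 1151032392, 3222454326, 981998, 443697892⟩,
    ⟨2115462359, 1947498524, 1143594907, 3249186039, 1003879, 442851517⟩,
    ⟨2164922585, 2039964510, 1135198371, 3274549131, 1028345, 441896003⟩,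
    ⟨2219215951, 2141466061, 1125811786, 3298550071, 1055982, 440827822⟩,
    ⟨2279273025, 2253742875, 1115410563, 3321244249, 1087568, 439644177⟩,
    ⟨2382906577, 2447485998, 1138698702, 3477816110, 1896151, 442294335⟩,
    ⟨2463550830, 2598250583, 1084936695, 3373452413, 1191773, 436176293⟩,
    ⟨2556311150, 2771666178, 1071056133, 3393629469, 1248716, 434596704⟩,
    ⟨2869634087, 3357424005, 1225026017, 4091546019, 6449877, 452118265⟩,
    ⟨3427855745, 4401020458, 1288954257, 4598728342, 9686015, 459393211⟩,
    ⟨4100242435, 5658048655, 1158253297, 4354870867, 5576376, 444519622⟩]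

def S : NSlice where
  T := 55
  L1 := 282
  L2 := 307
  R1 := 10249024
  R2 := 10103747
  F := 1421614495
  Fd := 1623567574
  P := 4445213045
  Pd := 8664558411
  KL := 3438500735
  blocks := [B0, B1]

theorem ok : S.ok = true := by decide +kernel

end Pool.Agent.BND.S282
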