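import Pool.Agent.Lib.BNC.Rec
import Pool.Agent.Lib.BND.G307

/-!
# The record of the slice `[307 / 1024, 323 / 1024]`
-/

set_option autoImplicit false

namespace Pool.Agent.BND.S307

open Pool.Agent.BNC

def B0 : Block where
  es := ev0
  kap := [79931, 79931, 79931, 79931]
  As := As0
  b1 := b10
  b2 := b20
  st := [
    ⟨1486198945, 755473563, 1238843922, 2498317070, 90281467, 470953946⟩,
    ⟨1626387281, 1012248332, 1308273153, 2936787262, 21530413, 479336907⟩,
    ⟨1682786409, 1115551312, 1203503821, 2799155246, 2502012, 466686944⟩]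

def B1 : Block where
  es := ev1
  kap := [45017, 25932, 11294, 7977, 5193, 2924, 2811, 3141, 3066, 5215, 7942, 15572]
  As := As1
  b1 := b11
  b2 := b21
  st := [
    ⟨1808272761, 1345397318, 1301034690, 3237035296, 9502970, 478462927⟩,
    ⟨1909262255, 1530373861, 1245886569, 3243173461, 4486835, 471804283⟩,
    ⟨1996306120, 1689807015, 1202594881, 3238508356, 2636014, 466577197⟩,
    ⟨2056607644, 1800257785, 1146755497, 3154387354, 1150773, 459835090⟩,
    ⟨2101033976, 1881630897, 1112058699, 3103919879, 655069, 455645761⟩,
    ⟨2149492733, 1970389965, 1103211886, 3125789208, 678784, 454577587⟩,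
    ⟨2202702043, 2067850344, 1093397615, 3146314976, 705617, 453392601⟩,
    ⟨2261576085, 2175686480, 1082590996, 3165544213, 736311, 452087798⟩,
    ⟨2327299852, 2296068857, 1070777977, 3183595508, 771870, 450661481⟩,
    ⟨2442306901, 2506720536, 1094276287, 3340549954, 1618223, 453498693⟩,
    ⟨2584347209, 2766887453, 1079161588, 3389933644, 1819002, 451673728⟩,
    ⟨2840856202, 3236719960, 1122504479, 3680347885, 3812510, 456906995⟩,
    ⟨3389046589, 4240808200, 1242073974, 4350557352, 8948919, 471343946⟩,
    ⟨4049580385, 5450669286, 1113792975, 4112087404, 5009216, 455855159⟩]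

def S : NSlice where
  T := 58
  L1 := 307
  L2 := 323
  R1 := 10103747
  R2 := 10009022
  F := 1417355132
  Fd := 1563441778
  P := 4325069053
  Pd := 8173892648
  KL := 3413129166
  blocks := [B0, B1]

theorem ok : S.ok = true := by decide +kernel

end Pool.Agent.BND.S307
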