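import Pool.Agent.Lib.BNC.Rec
import Pool.Agent.Lib.BND.G323

/-!
# The record of the slice `[323 / 1024, 338 / 1024]`
-/

set_option autoImplicit false

namespace Pool.Agent.BND.S323

open Pool.Agent.BNC

def B0 : Block where
  es := ev0
  kap := [45017, 38315, 30733, 32037, 31972, 37922]
  As := As0
  b1 := b10
  b2 := b20
  st := [
    ⟨1502616994, 775357583, 1254493659, 2549143161, 100105475, 489287039⟩,
    ⟨1672932206, 1083268136, 1354165432, 3107881761, 30567613, 501620334⟩,
    ⟨1781008468, 1278657740, 1265002050, 3081393932, 7426406, 490587338⟩]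

def B1 : Block where
  es := ev1
  kap := [45017, 25932, 11294, 7977, 2898, 3103, 2769, 2900, 2737, 3115, 5278, 7606, 7977]
  As := As1
  b1 := b11
  b2 := b21
  st := [
    ⟨1905499632, 1503723621, 1268255931, 3269942385, 7111969, 490989970⟩,
    ⟨1991344316, 1658921057, 1185405596, 3160447569, 2545532, 480738145⟩,
    ⟨2072323706, 1805322595, 1153432836, 3163078677, 1844938, 476781865⟩,
    ⟨2142570173, 1932320227, 1115886555, 3128656254, 1195189, 472135923⟩,
    ⟨2195131542, 2027345211, 1075714182, 3062696696, 661847, 467165030⟩,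
    ⟨2253304145, 2132514668, 1064610675, 3079694066, 691366, 465791092⟩,
    ⟨2318261366, 2249949944, 1052516040, 3095519851, 725560, 464294513⟩,
    ⟨2391556690, 2382459563, 1039434329, 3110395277, 765759, 462675794⟩,
    ⟨2475298666, 2533855541, 1025402357, 3124721909, 813858, 460939491⟩,
    ⟨2627291913, 2808642063, 1054072648, 3307733735, 1817668, 464487126⟩,
    ⟨2907782765, 3315737658, 1101050097, 3612099623, 3907862, 470300073⟩,
    ⟨3368803743, 4149211210, 1126871599, 3902710516, 5514637, 473495202⟩,
    ⟨4022815234, 5331589685, 1088814207, 3974907777, 4788687, 468786015⟩]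

def S : NSlice where
  T := 58
  L1 := 323
  L2 := 338
  R1 := 10009022
  R2 := 9918717
  F := 1417349158
  Fd := 1528691088
  P := 4249509404
  Pd := 7872194363
  KL := 3427400730
  blocks := [B0, B1]

theorem ok : S.ok = true := by decide +kernel

end Pool.Agent.BND.S323
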