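import Pool.Agent.Lib.BNC.Rec
import Pool.Agent.Lib.BND.G353

/-!
# The record of the slice `[353 / 1024, 369 / 1024]`
-/

set_option autoImplicit false

namespace Pool.Agent.BND.S353

open Pool.Agent.BNC

def B0 : Block where
  es := ev0
  kap := [37922, 25932, 15261, 11063, 11880, 11443, 11698, 11443, 15572]
  As := As0
  b1 := b10
  b2 := b20
  st := [
    ⟨1512412621, 773808034, 1247684004, 2524409539, 98837164, 524286728⟩,
    ⟨1694238421, 1094545740, 1363503432, 3125258866, 36522977, 539370743⟩,
    ⟨1843007687, 1356972265, 1298648324, 3210989514, 13198393, 530924186⟩,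
    ⟨1949115077, 1544143948, 1200919822, 3103724942, 4478130, 518196285⟩]

def B1 : Block where
  es := ev1
  kap := [52930, 8186, 7959, 11480, 4832, 3172, 1384, 1408, 1262, 1398, 1327, 1395, 1395, 1327, 2900,
     5010, 7977]
  As := As1
  b1 := b11
  b2 := b21
  st := [
    ⟨2063340054, 1745634918, 1174155969, 3160883900, 3798733, 514710632⟩,
    ⟨2157022541, 1910889276, 1110328394, 3077590748, 1976097, 506397899⟩,
    ⟨2240244675, 2057691746, 1066664565, 3026153094, 1295294, 500711237⟩,
    ⟨2303817725, 2169833554, 1020451343, 2942660326, 726455, 494692550⟩,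
    ⟨2375589151, 2296437163, 1006863288, 2953494733, 763700, 492922878⟩,
    ⟨2457631543, 2441158588, 992349795, 2963746386, 808264, 491032679⟩,
    ⟨2552843402, 2609110733, 976999585, 2974066933, 862732, 489033509⟩,
    ⟨2665428318, 2807708664, 961003390, 2985606733, 931087, 486950207⟩,
    ⟨2801765379, 3048204985, 944747852, 3000441116, 1019804, 484833129⟩,
    ⟨2972115099, 3348699075, 929019771, 3022483544, 1140172, 482784745⟩]

def B2 : Block where
  es := ev2
  kap := [45017, 25932, 11294, 7977, 5193, 2924, 2811, 3141, 5539, 5039, 5121, 5243, 2898]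
  As := As2
  b1 := b12
  b2 := b22
  st := [
    ⟨3194312503, 3740651623, 915498537, 3059660126, 1313805, 481023776⟩,
    ⟨3502931749, 4285050872, 908127645, 3129908388, 1587985, 480063810⟩,
    ⟨3977118671, 5121508762, 917864492, 3281812577, 2089796, 481331911⟩]

def S : NSlice where
  T := 58
  L1 := 353
  L2 := 369
  R1 := 9826159
  R2 := 9721984
  F := 1420135296
  Fd := 1467195964
  P := 4109469452
  Pd := 7327095451
  KL := 3478439292
  blocks := [B0, B1, B2]

theorem ok : S.ok = true := by decide +kernel

end Pool.Agent.BND.S353
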