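import Pool.Agent.Lib.BNC.Rec
import Pool.Agent.Lib.BND.G369

/-!
# The record of the slice `[369 / 1024, 376 / 1024]`
-/

set_option autoImplicit false

namespace Pool.Agent.BND.S369

open Pool.Agent.BNC

def B0 : Block where
  es := ev0
  kap := [79931, 79931, 79931, 79931]
  As := As0
  b1 := b10
  b2 := b20
  st := [
    ⟨1499306484, 740509548, 1213154112, 2411511103, 85467696, 514363887⟩,
    ⟨1643764932, 991876425, 1285885656, 2837737314, 24840399, 523635581⟩,
    ⟨1708293390, 1104160043, 1168794008, 2679700330, 3021834, 508708936⟩]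

def B1 : Block where
  es := ev1
  kap := [61221, 31380, 16270, 7718, 7832, 7959, 8186, 7852, 20544]
  As := As1
  b1 := b11
  b2 := b21
  st := [
    ⟨1835071752, 1324762447, 1242336714, 3036055158, 8903042, 518084036⟩,
    ⟨1956535390, 1536116895, 1197252029, 3077227294, 5484230, 512336716⟩,
    ⟨2052010291, 1702249290, 1123880419, 2988514972, 2403936, 502983428⟩,
    ⟨2119614768, 1819885375, 1060784260, 2882347112, 953783, 494940036⟩]

def B2 : Block where
  es := ev2
  kap := [37922, 20599, 11443, 5243, 2898, 2898, 1430, 1362, 1367, 1401, 1459, 1353, 1561, 1353, 1459,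
     1401, 2769, 3103, 2898]
  As := As2
  b1 := b12
  b2 := b22
  st := [
    ⟨2226323581, 2005565490, 1074770221, 3011166244, 1869343, 496722943⟩,
    ⟨2323234529, 2174196696, 1026723005, 2948438387, 1173296, 490597965⟩,
    ⟨2398752795, 2305603277, 975718912, 2851377566, 580957, 484096050⟩,
    ⟨2485710050, 2456914427, 960634395, 2859646311, 627769, 482173101⟩,
    ⟨2587533066, 2634092944, 944792584, 2868378808, 685575, 480153614⟩,
    ⟨2709298889, 2845973212, 928453717, 2879035409, 759080, 478070763⟩,
    ⟨2858924394, 3106331099, 912145121, 2894306496, 856177, 475991770⟩,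
    ⟨3049607853, 3438132433, 896962454, 2919436063, 991217, 474056310⟩,
    ⟨3305454773, 3883322330, 885345416, 2965592677, 1193342, 472575389⟩,
    ⟨3676753123, 4529405049, 883457791, 3060127282, 1532238, 472334758⟩,
    ⟨3939434322, 4986487027, 766786018, 2707962448, 474988, 457461638⟩]

def S : NSlice where
  T := 58
  L1 := 369
  L2 := 376
  R1 := 9721984
  R2 := 9673686
  F := 1416433438
  Fd := 1428223858
  P := 4032936032
  Pd := 7036911105
  KL := 3441195081
  blocks := [B0, B1, B2]

theorem ok : S.ok = true := by decide +kernel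

end Pool.Agent.BND.S369
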