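import Pool.Agent.Lib.BNC.Rec
import Pool.Agent.Lib.BND.G376

/-!
# The record of the slice `[376 / 1024, 377 / 1024]`
-/

set_option autoImplicit false

namespace Pool.Agent.BND.S376

open Pool.Agent.BNC

def B0 : Block where
  es := ev0
  kap := [79931, 79931, 79931, 79931]
  As := As0
  b1 := b10
  b2 := b20
  st := [
    ⟨1502356282, 741172999, 1212043189, 2407942851, 88496858, 506490051⟩,
    ⟨1600131909, 910249551, 1205002779, 2575956301, 11517749, 505610365⟩]

def B1 : Block where
  es := ev1
  kap := [61221, 31380, 16270, 7718, 7832, 7959, 8186, 7852, 20544]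
  As := As1
  b1 := b11
  b2 := b21
  st := [
    ⟨1756914145, 1181362104, 1293362075, 3032694582, 18872744, 516650691⟩,
    ⟨1901626146, 1431602444, 1239157753, 3104909622, 9507347, 509877964⟩,
    ⟨2024874978, 1644728029, 1161080821, 3047283367, 4433847, 500122399⟩,
    ⟨2112482224, 1796221110, 1076359159, 2906792590, 1585766, 489536588⟩]

def B2 : Block where
  es := ev2
  kap := [37922, 20599, 11443, 7978, 5120, 2878, 1362, 1367, 1401, 1459, 1353, 1561, 1353, 1459, 2852,
     3042, 2878, 1287]
  As := As2
  b1 := b12
  b2 := b22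
  st := [
    ⟨2218418630, 1979409526, 1061849933, 2956745552, 1780119, 487723688⟩,
    ⟨2314631237, 2145783256, 1014069895, 2894260712, 1102176, 481753663⟩,
    ⟨2389606956, 2275433523, 963482359, 2798378305, 525891, 475432846⟩,
    ⟨2475940934, 2424724833, 948363520, 2805855794, 571382, 473543776⟩,
    ⟨2577035751, 2599541027, 932486667, 2813746828, 627516, 471559993⟩,
    ⟨2697932621, 2808599526, 916105951, 2823473629, 698839, 469513254⟩,
    ⟨2846492565, 3065493847, 899737436, 2837658937, 792970, 467468039⟩,
    ⟨3035820769, 3392885866, 884454731, 2861418580, 923751, 465558494⟩,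
    ⟨3289852781, 3832165653, 872650449, 2905653929, 1119284, 464083571⟩,
    ⟨3658522112, 4469679737, 870372815, 2997071855, 1446715, 463798985⟩,
    ⟨3919345771, 4920703846, 755215160, 2651547026, 423105, 449410255⟩]

def S : NSlice where
  T := 58
  L1 := 376
  L2 := 377
  R1 := 9673686
  R2 := 9662805
  F := 1413484863
  Fd := 1409340803
  P := 3998214939
  Pd := 6907061296
  KL := 3409442871
  blocks := [B0, B1, B2]

theorem ok : S.ok = true := by decide +kernel

end Pool.Agent.BND.S376
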