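import Pool.Agent.Lib.BNC.Rec
import Pool.Agent.Lib.BND.G51

/-!
# The record of the slice `[51 / 1024, 77 / 1024]`
-/

set_option autoImplicit false

namespace Pool.Agent.BND.S51

open Pool.Agent.BNC

def B0 : Block where
  es := ev0
  kap := [79931, 79931, 79931, 79931]
  As := As0
  b1 := b10
  b2 := b20
  st := [
    ⟨1505482649, 999770493, 1455475594, 3388598574, 115092420, 112089567⟩,
    ⟨1734372523, 1529804553, 1648612566, 4556932407, 27949296, 115794762⟩,
    ⟨1865397935, 1833216537, 1585238825, 4701020153, 7304446, 114578982⟩]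

def B1 : Block where
  es := ev1
  kap := [5193, 5262, 5036, 5215, 3066, 3141, 2811, 2924, 3172, 4832, 5243, 5121, 8140, 8140, 11294,
     7977]
  As := As1
  b1 := b11
  b2 := b21
  st := [
    ⟨1968681906, 2072388423, 1564666569, 4858847179, 4090135, 114184318⟩,
    ⟨2026812604, 2207000100, 1501928330, 4772833561, 1683290, 112980730⟩,
    ⟨2068522933, 2303587576, 1478347312, 4771037421, 1215050, 112528345⟩,
    ⟨2112963974, 2406498485, 1480955486, 4854337310, 1237965, 112578381⟩,
    ⟨2160517464, 2516616810, 1482500609, 4936197248, 1262808, 112608023⟩,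
    ⟨2238717658, 2697702874, 1519471109, 5181461767, 1926623, 113317275⟩]

def B2 : Block where
  es := ev2
  kap := [37922, 38928, 30963, 30963, 38928, 37922]
  As := As2
  b1 := b12
  b2 := b22
  st := [
    ⟨2326993212, 2902120175, 1521323972, 5315976202, 2035614, 113352821⟩,
    ⟨2546173733, 3409670551, 1672759101, 6152859864, 6939166, 116257996⟩,
    ⟨3083041919, 4652881617, 1996531174, 8022802263, 23089221, 122469333⟩,
    ⟨4633962175, 8244305500, 2851555638, 12997989701, 63589884, 138872370⟩]

def S : NSlice where
  T := 30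
  L1 := 51
  L2 := 77
  R1 := 11568397
  R2 := 11418297
  F := 1486751939
  Fd := 2373935965
  P := 5843142219
  Pd := 15361881571
  KL := 3535998805
  blocks := [B0, B1, B2]

theorem ok : S.ok = true := by decide +kernel

end Pool.Agent.BND.S51
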