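/-!
# Grid of the slice `[77 / 1024, 102 / 1024]`: nodes and bounds (data)

`ev`: nodes `e` (units `1 / 1024`); `As`: nodes `a` (units `1 / 1024`); `b1`, `b2`: bounds at the two ends
(units `2 ^ (-20)`).
-/

set_option autoImplicit false

namespace Pool.Agent.BND.S77

def ev0 : List (Int × Int) :=
  [(1024, 0), (684, 762), ((-101), 1019), ((-823), 609), ((-1024), 0)]

def As0 : List Nat :=
  [0, 392, 552]

def b10 : List (List Nat) := [
  [819843, 819843, 819843, 819840, 819843],
  [1253512, 1253513, 1253669, 1253669, 1261133],
  [1375509, 1375509, 1375671, 1375671, 1383361]]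

def b20 : List (List Nat) := [
  [811517, 811517, 811518, 811515, 811517],
  [1237288, 1237288, 1237446, 1237447, 1245004],
  [1360841, 1360841, 1361005, 1361005, 1368793]]

def ev1 : List (Int × Int) :=
  [(1024, 0), (964, 345), (823, 609), (649, 792), (437, 926), (201, 1004), ((-45), 1023),
   ((-174), 1009), ((-300), 979), ((-525), 879), ((-762), 684), ((-945), 394), ((-1024), 0)]

def As1 : List Nat :=
  [552, 640, 680, 704, 720, 736, 760, 792]

def b11 : List (List Nat) := [
  [1391068, 1391770, 1392427, 1392869, 1392870, 1392857, 1392430, 1392074, 1391670, 1390822,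
   1389697, 1388350, 1387495],
  [1414661, 1414661, 1415510, 1416180, 1416227, 1416253, 1416122, 1417409, 1416121, 1415397,
   1414787, 1413639, 1413638],
  [1425532, 1425532, 1426368, 1427029, 1427074, 1427099, 1426971, 1428237, 1426971, 1426257,
   1425657, 1424527, 1424526],
  [1427523, 1427523, 1428354, 1429008, 1429054, 1429080, 1428952, 1430209, 1428952, 1428243,
   1427647, 1426525, 1426524],
  [1428163, 1428164, 1428991, 1429643, 1429688, 1429714, 1429586, 1430838, 1429586, 1428880,
   1428286, 1427169, 1427168],
  [1427267, 1427267, 1428099, 1428756, 1428800, 1428827, 1428850, 1429958, 1428841, 1427988,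
   1427391, 1426267, 1426266],
  [1425752, 1425753, 1426590, 1427251, 1427297, 1427323, 1427346, 1428461, 1427337, 1426478,
   1425877, 1424745, 1424744],
  [1425753, 1425754, 1426591, 1427252, 1427298, 1427324, 1427347, 1428462, 1427338, 1426479,
   1425878, 1424746, 1424745]]

def b21 : List (List Nat) := [
  [1375083, 1376284, 1377381, 1378003, 1378257, 1378338, 1377827, 1377530, 1377005, 1375859,
   1374195, 1371974, 1370567],
  [1400493, 1400494, 1401354, 1402032, 1402080, 1402105, 1401973, 1403276, 1401973, 1401238,
   1400620, 1399458, 1399457],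
  [1411503, 1411504, 1412350, 1413018, 1413065, 1413091, 1412959, 1414242, 1412959, 1412236,
   1411629, 1410485, 1410483],
  [1413519, 1413520, 1414361, 1415024, 1415070, 1415096, 1414966, 1416239, 1414966, 1414248,
   1413644, 1412508, 1412507],
  [1414167, 1414168, 1415006, 1415666, 1415712, 1415738, 1415608, 1416876, 1415608, 1414893,
   1414292, 1413160, 1413159],
  [1413260, 1413261, 1414103, 1414767, 1414814, 1414839, 1414862, 1415985, 1414854, 1413990,
   1413385, 1412247, 1412246],
  [1411725, 1411726, 1412574, 1413243, 1413290, 1413316, 1413339, 1414469, 1413330, 1412460,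
   1411851, 1410707, 1410706],
  [1411726, 1411728, 1412576, 1413244, 1413291, 1413317, 1413340, 1414470, 1413331, 1412461,
   1411852, 1410707, 1410706]]

def ev2 : List (Int × Int) :=
  [(1024, 0), (852, 568), (437, 926), ((-45), 1023), ((-525), 879), ((-879), 525), ((-1024), 0)]

def As2 : List Nat :=
  [792, 840, 912, 984]

def b12 : List (List Nat) := [
  [1414277, 1414278, 1415660, 1416955, 1416955, 1415741, 1415740],
  [1392113, 1392114, 1393566, 1394925, 1394925, 1393650, 1393650],
  [1309422, 1315379, 1326261, 1334489, 1339096, 1339218, 1339216],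
  [1147595, 1172864, 1194243, 1207598, 1215291, 1218177, 1218572]]

def b22 : List (List Nat) := [
  [1400104, 1400104, 1401505, 1402816, 1402816, 1401586, 1401585],
  [1377657, 1377658, 1379128, 1380505, 1380505, 1379213, 1379212],
  [1291346, 1301157, 1317514, 1325542, 1325541, 1324086, 1324085],
  [1153960, 1176696, 1200545, 1215079, 1222578, 1224161, 1223314]]

end Pool.Agent.BND.S77
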