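import Pool.Agent.Lib.BNC.Rec
import Pool.Agent.Lib.BND.G77

/-!
# The record of the slice `[77 / 1024, 102 / 1024]`
-/

set_option autoImplicit false

namespace Pool.Agent.BND.S77

open Pool.Agent.BNC

def B0 : Block where
  es := ev0
  kap := [91019, 89109, 90239, 52930]
  As := As0
  b1 := b10
  b2 := b20
  st := [
    ⟨1500942898, 962644386, 1427939837, 3259586157, 112315479, 146181105⟩,
    ⟨1723011404, 1463048092, 1605973193, 4333309772, 26908667, 150623693⟩]

def B1 : Block where
  es := ev1
  kap := [15572, 11443, 8186, 7959, 7832, 7718, 2217, 2209, 7762, 11998, 14963, 20544]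
  As := As1
  b1 := b11
  b2 := b21
  st := [
    ⟨1882485593, 1822403304, 1593467427, 4678686580, 10465519, 150311628⟩,
    ⟨1969616052, 2018740938, 1498405480, 4569960953, 2924391, 147939482⟩,
    ⟨2027974599, 2150244651, 1457252172, 4547476959, 1552071, 146912556⟩,
    ⟨2069956081, 2244844688, 1432180099, 4538547346, 1092932, 146286915⟩,
    ⟨2114787797, 2345867374, 1433294096, 4613109924, 1114882, 146314714⟩,
    ⟨2188297739, 2511512868, 1467234854, 4835130501, 1726840, 147161661⟩,
    ⟨2300908372, 2765266897, 1507228445, 5130048871, 2767859, 148159648⟩]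

def B2 : Block where
  es := ev2
  kap := [45017, 38315, 30733, 32037, 31972, 37922]
  As := As2
  b1 := b12
  b2 := b22
  st := [
    ⟨2514961178, 3247608223, 1610823869, 5770987363, 6493987, 150744735⟩,
    ⟨3039508706, 4429610713, 1915367749, 7498068323, 21614752, 158344225⟩,
    ⟨4555509672, 7845729981, 2720063094, 12089324535, 58824418, 178424335⟩]

def S : NSlice where
  T := 30
  L1 := 77
  L2 := 102
  R1 := 11418297
  R2 := 11274427
  F := 1472843051
  Fd := 2258767114
  P := 5649404583
  Pd := 14325068628
  KL := 3485749841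
  blocks := [B0, B1, B2]

theorem ok : S.ok = true := by decide +kernel

end Pool.Agent.BND.S77
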