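import Pool.Agent.Lib.BNC.SliceN
import Pool.Agent.Lib.BNC.Sound
import Pool.Agent.Lib.BND.P0
import Pool.Agent.Lib.BND.R0
import Pool.Agent.Lib.BND.P26
import Pool.Agent.Lib.BND.R26
import Pool.Agent.Lib.BND.P51
import Pool.Agent.Lib.BND.R51
import Pool.Agent.Lib.BND.P77
import Pool.Agent.Lib.BND.R77
import Pool.Agent.Lib.BND.P102
import Pool.Agent.Lib.BND.R102
import Pool.Agent.Lib.BND.P128
import Pool.Agent.Lib.BND.R128
import Pool.Agent.Lib.BND.P154
import Pool.Agent.Lib.BND.R154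
import Pool.Agent.Lib.BND.P179
import Pool.Agent.Lib.BND.R179
import Pool.Agent.Lib.BND.P205
import Pool.Agent.Lib.BND.R205
import Pool.Agent.Lib.BND.P230
import Pool.Agent.Lib.BND.R230
import Pool.Agent.Lib.BND.P256
import Pool.Agent.Lib.BND.R256
import Pool.Agent.Lib.BND.P282
import Pool.Agent.Lib.BND.R282
import Pool.Agent.Lib.BND.P307
import Pool.Agent.Lib.BND.R307
import Pool.Agent.Lib.BND.P323
import Pool.Agent.Lib.BND.R323
import Pool.Agent.Lib.BND.P338
import Pool.Agent.Lib.BND.R338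
import Pool.Agent.Lib.BND.P353
import Pool.Agent.Lib.BND.R353
import Pool.Agent.Lib.BND.P369
import Pool.Agent.Lib.BND.R369
import Pool.Agent.Lib.BND.P376
import Pool.Agent.Lib.BND.R376

/-!
# The near zone on the eighteen slices
-/

set_option autoImplicit false

open Pool.Agent.P187w Pool.Agent.BMM Pool.Agent.BNC

namespace Pool.Agent.BND

/-- Slice 0. -/
theorem near0 : ∀ l : ℝ, 0 < l → l ≤ 26 / 1024 →
    NEAR l (chord 0 26 11863619 11713037 l) (25 / 1024) (40 / 1024) := by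
  intro l h0 h1
  exact NSlice.near_num S0.S S0.ok
    (List.forall_mem_cons.2 ⟨rows_of_blk S0.t10, (List.forall_mem_cons.2 ⟨rows_of_blk S0.t11, (List.forall_mem_cons.2 ⟨rows_of_blk S0.t12, (List.forall_mem_nil _)⟩)⟩)⟩)
    (List.forall_mem_cons.2 ⟨rows_of_blk S0.t20, (List.forall_mem_cons.2 ⟨rows_of_blk S0.t21, (List.forall_mem_cons.2 ⟨rows_of_blk S0.t22, (List.forall_mem_nil _)⟩)⟩)⟩)
    (by norm_num [S0.S]) (by norm_num [S0.S]) (by norm_num [S0.S]) (by norm_num [S0.S])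
    (by norm_num [S0.S]) (by linarith) (by linarith) h1

/-- Slice 1. -/
theorem near1 : ∀ l : ℝ, 26 / 1024 < l → l ≤ 51 / 1024 →
    NEAR l (chord 26 51 11713037 11568397 l) (25 / 1024) (40 / 1024) := by
  intro l h0 h1
  exact NSlice.near_num S26.S S26.ok
    (List.forall_mem_cons.2 ⟨rows_of_blk S26.t10, (List.forall_mem_cons.2 ⟨rows_of_blk S26.t11, (List.forall_mem_cons.2 ⟨rows_of_blk S26.t12, (List.forall_mem_nil _)⟩)⟩)⟩)
    (List.forall_mem_cons.2 ⟨rows_of_blk S26.t20, (List.forall_mem_cons.2 ⟨rows_of_blk S26.t21, (List.forall_mem_cons.2 ⟨rows_of_blk S26.t22, (List.forall_mem_nil _)⟩)⟩)⟩)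
    (by norm_num [S26.S]) (by norm_num [S26.S]) (by norm_num [S26.S]) (by norm_num [S26.S])
    (by norm_num [S26.S]) (by linarith) (by linarith) h1

/-- Slice 2. -/
theorem near2 : ∀ l : ℝ, 51 / 1024 < l → l ≤ 77 / 1024 →
    NEAR l (chord 51 77 11568397 11418297 l) (30 / 1024) (40 / 1024) := by
  intro l h0 h1
  exact NSlice.near_num S51.S S51.ok
    (List.forall_mem_cons.2 ⟨rows_of_blk S51.t10, (List.forall_mem_cons.2 ⟨rows_of_blk S51.t11, (List.forall_mem_cons.2 ⟨rows_of_blk S51.t12, (List.forall_mem_nil _)⟩)⟩)⟩)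
    (List.forall_mem_cons.2 ⟨rows_of_blk S51.t20, (List.forall_mem_cons.2 ⟨rows_of_blk S51.t21, (List.forall_mem_cons.2 ⟨rows_of_blk S51.t22, (List.forall_mem_nil _)⟩)⟩)⟩)
    (by norm_num [S51.S]) (by norm_num [S51.S]) (by norm_num [S51.S]) (by norm_num [S51.S])
    (by norm_num [S51.S]) (by linarith) (by linarith) h1

/-- Slice 3. -/
theorem near3 : ∀ l : ℝ, 77 / 1024 < l → l ≤ 102 / 1024 →
    NEAR l (chord 77 102 11418297 11274427 l) (30 / 1024) (40 / 1024) := by
  intro l h0 h1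
  exact NSlice.near_num S77.S S77.ok
    (List.forall_mem_cons.2 ⟨rows_of_blk S77.t10, (List.forall_mem_cons.2 ⟨rows_of_blk S77.t11, (List.forall_mem_cons.2 ⟨rows_of_blk S77.t12, (List.forall_mem_nil _)⟩)⟩)⟩)
    (List.forall_mem_cons.2 ⟨rows_of_blk S77.t20, (List.forall_mem_cons.2 ⟨rows_of_blk S77.t21, (List.forall_mem_cons.2 ⟨rows_of_blk S77.t22, (List.forall_mem_nil _)⟩)⟩)⟩)
    (by norm_num [S77.S]) (by norm_num [S77.S]) (by norm_num [S77.S]) (by norm_num [S77.S])
    (by norm_num [S77.S]) (by linarith) (by linarith) h1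

/-- Slice 4. -/
theorem near4 : ∀ l : ℝ, 102 / 1024 < l → l ≤ 128 / 1024 →
    NEAR l (chord 102 128 11274427 11125386 l) (30 / 1024) (40 / 1024) := by
  intro l h0 h1
  exact NSlice.near_num S102.S S102.ok
    (List.forall_mem_cons.2 ⟨rows_of_blk S102.t10, (List.forall_mem_cons.2 ⟨rows_of_blk S102.t11, (List.forall_mem_cons.2 ⟨rows_of_blk S102.t12, (List.forall_mem_nil _)⟩)⟩)⟩)
    (List.forall_mem_cons.2 ⟨rows_of_blk S102.t20, (List.forall_mem_cons.2 ⟨rows_of_blk S102.t21, (List.forall_mem_cons.2 ⟨rows_of_blk S102.t22, (List.forall_mem_nil _)⟩)⟩)⟩)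
    (by norm_num [S102.S]) (by norm_num [S102.S]) (by norm_num [S102.S]) (by norm_num [S102.S])
    (by norm_num [S102.S]) (by linarith) (by linarith) h1

/-- Slice 5. -/
theorem near5 : ∀ l : ℝ, 128 / 1024 < l → l ≤ 154 / 1024 →
    NEAR l (chord 128 154 11125386 10976978 l) (40 / 1024) (40 / 1024) := by
  intro l h0 h1
  exact NSlice.near_num S128.S S128.ok
    (List.forall_mem_cons.2 ⟨rows_of_blk S128.t10, (List.forall_mem_cons.2 ⟨rows_of_blk S128.t11, (List.forall_mem_cons.2 ⟨rows_of_blk S128.t12, (List.forall_mem_nil _)⟩)⟩)⟩)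
    (List.forall_mem_cons.2 ⟨rows_of_blk S128.t20, (List.forall_mem_cons.2 ⟨rows_of_blk S128.t21, (List.forall_mem_cons.2 ⟨rows_of_blk S128.t22, (List.forall_mem_nil _)⟩)⟩)⟩)
    (by norm_num [S128.S]) (by norm_num [S128.S]) (by norm_num [S128.S]) (by norm_num [S128.S])
    (by norm_num [S128.S]) (by linarith) (by linarith) h1

/-- Slice 6. -/
theorem near6 : ∀ l : ℝ, 154 / 1024 < l → l ≤ 179 / 1024 →
    NEAR l (chord 154 179 10976978 10834818 l) (40 / 1024) (40 / 1024) := by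
  intro l h0 h1
  exact NSlice.near_num S154.S S154.ok
    (List.forall_mem_cons.2 ⟨rows_of_blk S154.t10, (List.forall_mem_cons.2 ⟨rows_of_blk S154.t11, (List.forall_mem_cons.2 ⟨rows_of_blk S154.t12, (List.forall_mem_nil _)⟩)⟩)⟩)
    (List.forall_mem_cons.2 ⟨rows_of_blk S154.t20, (List.forall_mem_cons.2 ⟨rows_of_blk S154.t21, (List.forall_mem_cons.2 ⟨rows_of_blk S154.t22, (List.forall_mem_nil _)⟩)⟩)⟩)
    (by norm_num [S154.S]) (by norm_num [S154.S]) (by norm_num [S154.S]) (by norm_num [S154.S])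
    (by norm_num [S154.S]) (by linarith) (by linarith) h1

/-- Slice 7. -/
theorem near7 : ∀ l : ℝ, 179 / 1024 < l → l ≤ 205 / 1024 →
    NEAR l (chord 179 205 10834818 10687355 l) (40 / 1024) (40 / 1024) := by
  intro l h0 h1
  exact NSlice.near_num S179.S S179.ok
    (List.forall_mem_cons.2 ⟨rows_of_blk S179.t10, (List.forall_mem_cons.2 ⟨rows_of_blk S179.t11, (List.forall_mem_cons.2 ⟨rows_of_blk S179.t12, (List.forall_mem_nil _)⟩)⟩)⟩)
    (List.forall_mem_cons.2 ⟨rows_of_blk S179.t20, (List.forall_mem_cons.2 ⟨rows_of_blk S179.t21, (List.forall_mem_cons.2 ⟨rows_of_blk S179.t22, (List.forall_mem_nil _)⟩)⟩)⟩)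
    (by norm_num [S179.S]) (by norm_num [S179.S]) (by norm_num [S179.S]) (by norm_num [S179.S])
    (by norm_num [S179.S]) (by linarith) (by linarith) h1

/-- Slice 8. -/
theorem near8 : ∀ l : ℝ, 205 / 1024 < l → l ≤ 230 / 1024 →
    NEAR l (chord 205 230 10687355 10545629 l) (45 / 1024) (40 / 1024) := by
  intro l h0 h1
  exact NSlice.near_num S205.S S205.ok
    (List.forall_mem_cons.2 ⟨rows_of_blk S205.t10, (List.forall_mem_cons.2 ⟨rows_of_blk S205.t11, (List.forall_mem_cons.2 ⟨rows_of_blk S205.t12, (List.forall_mem_nil _)⟩)⟩)⟩)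
    (List.forall_mem_cons.2 ⟨rows_of_blk S205.t20, (List.forall_mem_cons.2 ⟨rows_of_blk S205.t21, (List.forall_mem_cons.2 ⟨rows_of_blk S205.t22, (List.forall_mem_nil _)⟩)⟩)⟩)
    (by norm_num [S205.S]) (by norm_num [S205.S]) (by norm_num [S205.S]) (by norm_num [S205.S])
    (by norm_num [S205.S]) (by linarith) (by linarith) h1

/-- Slice 9. -/
theorem near9 : ∀ l : ℝ, 230 / 1024 < l → l ≤ 256 / 1024 →
    NEAR l (chord 230 256 10545629 10397833 l) (45 / 1024) (40 / 1024) := by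
  intro l h0 h1
  exact NSlice.near_num S230.S S230.ok
    (List.forall_mem_cons.2 ⟨rows_of_blk S230.t10, (List.forall_mem_cons.2 ⟨rows_of_blk S230.t11, (List.forall_mem_cons.2 ⟨rows_of_blk S230.t12, (List.forall_mem_nil _)⟩)⟩)⟩)
    (List.forall_mem_cons.2 ⟨rows_of_blk S230.t20, (List.forall_mem_cons.2 ⟨rows_of_blk S230.t21, (List.forall_mem_cons.2 ⟨rows_of_blk S230.t22, (List.forall_mem_nil _)⟩)⟩)⟩)
    (by norm_num [S230.S]) (by norm_num [S230.S]) (by norm_num [S230.S]) (by norm_num [S230.S])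
    (by norm_num [S230.S]) (by linarith) (by linarith) h1

/-- Slice 10. -/
theorem near10 : ∀ l : ℝ, 256 / 1024 < l → l ≤ 282 / 1024 →
    NEAR l (chord 256 282 10397833 10249024 l) (55 / 1024) (40 / 1024) := by
  intro l h0 h1
  exact NSlice.near_num S256.S S256.ok
    (List.forall_mem_cons.2 ⟨rows_of_blk S256.t10, (List.forall_mem_cons.2 ⟨rows_of_blk S256.t11, (List.forall_mem_nil _)⟩)⟩)
    (List.forall_mem_cons.2 ⟨rows_of_blk S256.t20, (List.forall_mem_cons.2 ⟨rows_of_blk S256.t21, (List.forall_mem_nil _)⟩)⟩)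
    (by norm_num [S256.S]) (by norm_num [S256.S]) (by norm_num [S256.S]) (by norm_num [S256.S])
    (by norm_num [S256.S]) (by linarith) (by linarith) h1

/-- Slice 11. -/
theorem near11 : ∀ l : ℝ, 282 / 1024 < l → l ≤ 307 / 1024 →
    NEAR l (chord 282 307 10249024 10103747 l) (55 / 1024) (40 / 1024) := by
  intro l h0 h1
  exact NSlice.near_num S282.S S282.ok
    (List.forall_mem_cons.2 ⟨rows_of_blk S282.t10, (List.forall_mem_cons.2 ⟨rows_of_blk S282.t11, (List.forall_mem_nil _)⟩)⟩)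
    (List.forall_mem_cons.2 ⟨rows_of_blk S282.t20, (List.forall_mem_cons.2 ⟨rows_of_blk S282.t21, (List.forall_mem_nil _)⟩)⟩)
    (by norm_num [S282.S]) (by norm_num [S282.S]) (by norm_num [S282.S]) (by norm_num [S282.S])
    (by norm_num [S282.S]) (by linarith) (by linarith) h1

/-- Slice 12. -/
theorem near12 : ∀ l : ℝ, 307 / 1024 < l → l ≤ 323 / 1024 →
    NEAR l (chord 307 323 10103747 10009022 l) (58 / 1024) (40 / 1024) := by
  intro l h0 h1
  exact NSlice.near_num S307.S S307.ok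
    (List.forall_mem_cons.2 ⟨rows_of_blk S307.t10, (List.forall_mem_cons.2 ⟨rows_of_blk S307.t11, (List.forall_mem_nil _)⟩)⟩)
    (List.forall_mem_cons.2 ⟨rows_of_blk S307.t20, (List.forall_mem_cons.2 ⟨rows_of_blk S307.t21, (List.forall_mem_nil _)⟩)⟩)
    (by norm_num [S307.S]) (by norm_num [S307.S]) (by norm_num [S307.S]) (by norm_num [S307.S])
    (by norm_num [S307.S]) (by linarith) (by linarith) h1

/-- Slice 13. -/
theorem near13 : ∀ l : ℝ, 323 / 1024 < l → l ≤ 338 / 1024 →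
    NEAR l (chord 323 338 10009022 9918717 l) (58 / 1024) (40 / 1024) := by
  intro l h0 h1
  exact NSlice.near_num S323.S S323.ok
    (List.forall_mem_cons.2 ⟨rows_of_blk S323.t10, (List.forall_mem_cons.2 ⟨rows_of_blk S323.t11, (List.forall_mem_nil _)⟩)⟩)
    (List.forall_mem_cons.2 ⟨rows_of_blk S323.t20, (List.forall_mem_cons.2 ⟨rows_of_blk S323.t21, (List.forall_mem_nil _)⟩)⟩)
    (by norm_num [S323.S]) (by norm_num [S323.S]) (by norm_num [S323.S]) (by norm_num [S323.S])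
    (by norm_num [S323.S]) (by linarith) (by linarith) h1

/-- Slice 14. -/
theorem near14 : ∀ l : ℝ, 338 / 1024 < l → l ≤ 353 / 1024 →
    NEAR l (chord 338 353 9918717 9826159 l) (58 / 1024) (40 / 1024) := by
  intro l h0 h1
  exact NSlice.near_num S338.S S338.ok
    (List.forall_mem_cons.2 ⟨rows_of_blk S338.t10, (List.forall_mem_cons.2 ⟨rows_of_blk S338.t11, (List.forall_mem_nil _)⟩)⟩)
    (List.forall_mem_cons.2 ⟨rows_of_blk S338.t20, (List.forall_mem_cons.2 ⟨rows_of_blk S338.t21, (List.forall_mem_nil _)⟩)⟩)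
    (by norm_num [S338.S]) (by norm_num [S338.S]) (by norm_num [S338.S]) (by norm_num [S338.S])
    (by norm_num [S338.S]) (by linarith) (by linarith) h1

/-- Slice 15. -/
theorem near15 : ∀ l : ℝ, 353 / 1024 < l → l ≤ 369 / 1024 →
    NEAR l (chord 353 369 9826159 9721984 l) (58 / 1024) (40 / 1024) := by
  intro l h0 h1
  exact NSlice.near_num S353.S S353.ok
    (List.forall_mem_cons.2 ⟨rows_of_blk S353.t10, (List.forall_mem_cons.2 ⟨rows_of_blk S353.t11, (List.forall_mem_cons.2 ⟨rows_of_blk S353.t12, (List.forall_mem_nil _)⟩)⟩)⟩)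
    (List.forall_mem_cons.2 ⟨rows_of_blk S353.t20, (List.forall_mem_cons.2 ⟨rows_of_blk S353.t21, (List.forall_mem_cons.2 ⟨rows_of_blk S353.t22, (List.forall_mem_nil _)⟩)⟩)⟩)
    (by norm_num [S353.S]) (by norm_num [S353.S]) (by norm_num [S353.S]) (by norm_num [S353.S])
    (by norm_num [S353.S]) (by linarith) (by linarith) h1

/-- Slice 16. -/
theorem near16 : ∀ l : ℝ, 369 / 1024 < l → l ≤ 376 / 1024 →
    NEAR l (chord 369 376 9721984 9673686 l) (58 / 1024) (40 / 1024) := by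
  intro l h0 h1
  exact NSlice.near_num S369.S S369.ok
    (List.forall_mem_cons.2 ⟨rows_of_blk S369.t10, (List.forall_mem_cons.2 ⟨rows_of_blk S369.t11, (List.forall_mem_cons.2 ⟨rows_of_blk S369.t12, (List.forall_mem_nil _)⟩)⟩)⟩)
    (List.forall_mem_cons.2 ⟨rows_of_blk S369.t20, (List.forall_mem_cons.2 ⟨rows_of_blk S369.t21, (List.forall_mem_cons.2 ⟨rows_of_blk S369.t22, (List.forall_mem_nil _)⟩)⟩)⟩)
    (by norm_num [S369.S]) (by norm_num [S369.S]) (by norm_num [S369.S]) (by norm_num [S369.S])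
    (by norm_num [S369.S]) (by linarith) (by linarith) h1

/-- Slice 17. -/
theorem near17 : ∀ l : ℝ, 376 / 1024 < l → l ≤ 377 / 1024 →
    NEAR l (chord 376 377 9673686 9662805 l) (58 / 1024) (40 / 1024) := by
  intro l h0 h1
  exact NSlice.near_num S376.S S376.ok
    (List.forall_mem_cons.2 ⟨rows_of_blk S376.t10, (List.forall_mem_cons.2 ⟨rows_of_blk S376.t11, (List.forall_mem_cons.2 ⟨rows_of_blk S376.t12, (List.forall_mem_nil _)⟩)⟩)⟩)
    (List.forall_mem_cons.2 ⟨rows_of_blk S376.t20, (List.forall_mem_cons.2 ⟨rows_of_blk S376.t21, (List.forall_mem_cons.2 ⟨rows_of_blk S376.t22, (List.forall_mem_nil _)⟩)⟩)⟩)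
    (by norm_num [S376.S]) (by norm_num [S376.S]) (by norm_num [S376.S]) (by norm_num [S376.S])
    (by norm_num [S376.S]) (by linarith) (by linarith) h1

end Pool.Agent.BND
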