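/-!
# Grid of the slice `[154 / 1024, 179 / 1024]`: nodes and bounds (data)

`ev`: nodes `e` (units `1 / 1024`); `As`: nodes `a` (units `1 / 1024`); `b1`, `b2`: bounds at the two ends
(units `2 ^ (-20)`).
-/

set_option autoImplicit false

namespace Pool.Agent.BND.S154

def ev0 : List (Int × Int) :=
  [(1024, 0), (525, 879), ((-479), 905), ((-1024), 0)]

def As0 : List Nat :=
  [0, 360, 504]

def b10 : List (List Nat) := [
  [811399, 811395, 811400, 811399],
  [1204583, 1204584, 1199544, 1193759],
  [1311215, 1311216, 1306054, 1306054]]

def b20 : List (List Nat) := [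
  [802787, 802780, 802785, 802787],
  [1191058, 1191060, 1185954, 1180107],
  [1299090, 1299091, 1293861, 1292818]]

def ev1 : List (Int × Int) :=
  [(1024, 0), (964, 345), (792, 649), (568, 852), (345, 964), (149, 1013), ((-45), 1023),
   ((-250), 993), ((-437), 926), ((-609), 823), ((-792), 649), ((-945), 394), ((-1024), 0)]

def As1 : List Nat :=
  [504, 616, 672, 704, 728, 752, 776, 816]

def b11 : List (List Nat) := [
  [1322937, 1324322, 1325390, 1325731, 1325568, 1325064, 1324434, 1323186, 1321596, 1319780,
   1316214, 1312231, 1308723],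
  [1363693, 1363693, 1363723, 1365252, 1366646, 1367690, 1367632, 1367632, 1367699, 1366551,
   1365357, 1361771, 1361769],
  [1379802, 1379803, 1379833, 1381335, 1382706, 1383733, 1383676, 1383676, 1383742, 1382615,
   1381439, 1377912, 1377910],
  [1383991, 1383992, 1384022, 1385507, 1386860, 1387876, 1387819, 1387819, 1387885, 1386770,
   1385609, 1382122, 1382121],
  [1384810, 1384811, 1384839, 1386319, 1387666, 1388675, 1388620, 1388620, 1388685, 1387575,
   1386420, 1382950, 1382949],
  [1384685, 1384686, 1384715, 1386193, 1387540, 1388549, 1388493, 1388493, 1388558, 1387448,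
   1386294, 1382826, 1382825],
  [1380955, 1380956, 1380985, 1382485, 1383851, 1384876, 1384819, 1384819, 1384884, 1383759,
   1382587, 1379068, 1379067],
  [1365877, 1368617, 1375049, 1381716, 1383852, 1384877, 1384820, 1384820, 1384886, 1383760,
   1382588, 1379069, 1379067]]

def b21 : List (List Nat) := [
  [1309575, 1310991, 1312193, 1312714, 1312758, 1312411, 1311914, 1311024, 1309359, 1306865,
   1302839, 1297558, 1292818],
  [1352256, 1352257, 1352288, 1353835, 1355248, 1356306, 1356247, 1356247, 1356315, 1355152,
   1353943, 1350309, 1350308],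
  [1368576, 1368577, 1368608, 1370131, 1371519, 1372559, 1372501, 1372501, 1372568, 1371425,
   1370236, 1366661, 1366660],
  [1372820, 1372821, 1372851, 1374356, 1375728, 1376757, 1376700, 1376700, 1376765, 1375635,
   1374459, 1370927, 1370926],
  [1373650, 1373651, 1373681, 1375179, 1376544, 1377567, 1377510, 1377510, 1377576, 1376451,
   1375281, 1371767, 1371766],
  [1373523, 1373525, 1373554, 1375051, 1376415, 1377438, 1377381, 1377381, 1377447, 1376323,
   1375154, 1371641, 1371640],
  [1369745, 1369746, 1369776, 1371294, 1372679, 1373717, 1373659, 1373659, 1373725, 1372585,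
   1371398, 1367833, 1367832],
  [1348548, 1352192, 1360838, 1369589, 1372680, 1373718, 1373660, 1373660, 1373726, 1372586,
   1371399, 1367834, 1367833]]

def ev2 : List (Int × Int) :=
  [(1024, 0), (823, 609), (437, 926), (0, 1024), ((-394), 945), ((-724), 724), ((-964), 345),
   ((-1024), 0)]

def As2 : List Nat :=
  [816, 864, 928, 984]

def b12 : List (List Nat) := [
  [1362204, 1362205, 1370298, 1372759, 1374642, 1372702, 1372703, 1376550],
  [1322478, 1335956, 1351894, 1354466, 1356435, 1354405, 1354406, 1358432],
  [1225615, 1258359, 1287498, 1304280, 1311454, 1312403, 1308428, 1305999],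
  [1180580, 1199330, 1221277, 1234911, 1240908, 1241683, 1237363, 1233714]]

def b22 : List (List Nat) := [
  [1348548, 1350748, 1358948, 1361441, 1363348, 1361383, 1361383, 1365283],
  [1304786, 1322856, 1340301, 1342908, 1344902, 1342846, 1342847, 1346926],
  [1207408, 1252823, 1286573, 1305022, 1312382, 1312727, 1306631, 1302565],
  [1191218, 1210006, 1232259, 1245660, 1250995, 1250965, 1244865, 1238227]]

end Pool.Agent.BND.S154
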