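import Pool.Agent.Lib.BNC.Rec
import Pool.Agent.Lib.BND.G154

/-!
# The record of the slice `[154 / 1024, 179 / 1024]`
-/

set_option autoImplicit false

namespace Pool.Agent.BND.S154

open Pool.Agent.BNC

def B0 : Block where
  es := ev0
  kap := [136782, 134922, 150339]
  As := As0
  b1 := b10
  b2 := b20
  st := [
    ⟨1464557192, 816607545, 1307000338, 2764514380, 92207909, 261164090⟩,
    ⟨1632113883, 1166716750, 1422552169, 3456375250, 19939438, 267505555⟩]

def B1 : Block where
  es := ev1
  kap := [15572, 15492, 11543, 7942, 5243, 4832, 5393, 5010, 5221, 8186, 11273, 20544]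
  As := As1
  b1 := b11
  b2 := b21
  st := [
    ⟨1803130580, 1524055628, 1501219408, 4038963387, 15639013, 271822800⟩,
    ⟨1910728503, 1748881167, 1419597057, 4018298602, 4912707, 267343379⟩,
    ⟨1982063461, 1897935349, 1362908616, 3973029321, 2152540, 264232327⟩,
    ⟨2041685772, 2022515989, 1339475073, 3993272035, 1549586, 262946298⟩,
    ⟨2107791777, 2160644289, 1338888279, 4083809616, 1623344, 262914095⟩,
    ⟨2181889917, 2315472132, 1336412875, 4172877486, 1709144, 262778245⟩,
    ⟨2329090995, 2623048346, 1407214214, 4576855009, 4150814, 266663811⟩]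

def B2 : Block where
  es := ev2
  kap := [52930, 31853, 25446, 20544, 20068, 25596, 15572]
  As := As2
  b1 := b12
  b2 := b22
  st := [
    ⟨2566039946, 3118152470, 1464438367, 5023496063, 7054692, 269804262⟩,
    ⟨3103039406, 4240211239, 1690283955, 6309729656, 19010424, 282198629⟩,
    ⟨4353691702, 6853445478, 2064094161, 8562559261, 33515619, 302713269⟩]

def S : NSlice where
  T := 40
  L1 := 154
  L2 := 179
  R1 := 10976978
  R2 := 10834818
  F := 1442020178
  Fd := 1971405620
  P := 5137864841
  Pd := 11755495155
  KL := 3403829111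
  blocks := [B0, B1, B2]

theorem ok : S.ok = true := by decide +kernel

end Pool.Agent.BND.S154
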