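import Pool.Agent.Lib.BNC.Rec
import Pool.Agent.Lib.BND.G338

/-!
# The record of the slice `[338 / 1024, 353 / 1024]`
-/

set_option autoImplicit false

namespace Pool.Agent.BND.S338

open Pool.Agent.BNC

def B0 : Block where
  es := ev0
  kap := [61221, 52903, 45472, 45484, 52930]
  As := As0
  b1 := b10
  b2 := b20
  st := [
    ⟨1501169043, 763338803, 1240780425, 2502644767, 94010068, 504619108⟩,
    ⟨1655253780, 1038517484, 1322114799, 2981122439, 26641484, 514935942⟩,
    ⟨1745388128, 1199487685, 1231383270, 2923876812, 5660471, 503427128⟩]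

def B1 : Block where
  es := ev1
  kap := [37922, 25932, 11121, 8472, 2681, 2878, 1362, 1367, 1401, 1459, 1353, 1561, 1353, 3141, 4768,
     11636]
  As := As1
  b1 := b11
  b2 := b21
  st := [
    ⟨1887412952, 1453128665, 1288016907, 3271318214, 10167120, 510610805⟩,
    ⟨2006297904, 1665444336, 1215821158, 3234347376, 4834122, 501453157⟩,
    ⟨2089576418, 1814170759, 1134991552, 3105791439, 1847154, 491200350⟩,
    ⟨2162226920, 1943916701, 1095878853, 3066344749, 1197393, 486239111⟩,
    ⟨2246375912, 2094197703, 1082613752, 3101160355, 1292117, 484556503⟩,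
    ⟨2310633721, 2208955204, 1036167573, 3017310436, 710162, 478665052⟩,
    ⟨2383158085, 2338475877, 1022834233, 3030148138, 748886, 476973788⟩,
    ⟨2466039143, 2486492485, 1008562654, 3042418010, 795214, 475163514⟩,
    ⟨2616513333, 2755223121, 1036009280, 3217872207, 1769528, 478644973⟩,
    ⟨2813508864, 3107035841, 1021512285, 3277680959, 2067424, 476806106⟩,
    ⟨3089397351, 3599742852, 1013241478, 3374484369, 2540484, 475756998⟩,
    ⟨3520985518, 4370512658, 1024895011, 3569248910, 3422437, 477235187⟩,
    ⟨3999263897, 5224666135, 936857001, 3384689987, 2128107, 466068032⟩]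

def S : NSlice where
  T := 58
  L1 := 338
  L2 := 353
  R1 := 9918717
  R2 := 9826159
  F := 1418255253
  Fd := 1497425306
  P := 4179418820
  Pd := 7597087027
  KL := 3448713599
  blocks := [B0, B1]

theorem ok : S.ok = true := by decide +kernel

end Pool.Agent.BND.S338
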